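import Mathlib
import Pool.Agent.Helper38.TW.GDefs
import Pool.Agent.Helper38.TW.FExists

/-!
# TW3, leaf S: the degenerate twists of a cubic with three rational roots

`D ∈ DegSet`: some `k ∉ I` has `E k = 1`, `g_k(x) = τ u²`, `u ≠ 0`. With `g_i = a_i X + e_i`, `a = a_k`, `e = e_k`:
`a g_i(x) = a_i τ u² + (a e_i - a_i e) = q_i(u)`, so `D F(u) u² = (a b y)²` with `F = b c τ q_i q_j` of degree `4`, squarefree. So `D` is a twist of one of finitely many quartics.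
-/

set_option autoImplicit false

namespace Pool.Agent.Helper32.TW

open Finset Polynomial Pool.Agent.Helper38.TW

/-- counting functions with a logarithmic saving -/
def Good (N : ℕ → ℝ) : Prop :=
  ∃ C c : ℝ, 0 < C ∧ 0 < c ∧ ∀ X : ℕ, 2 ≤ X → N X ≤ C * X / (Real.log X) ^ c

theorem good_zero : Good (fun _ => 0) := by
  refine ⟨1, 1, one_pos, one_pos, fun X _ => ?_⟩
  exact div_nonneg (by positivity) (Real.rpow_nonneg (Real.log_natCast_nonneg X) _)

theorem weaken {C c c' : ℝ} (hC : 0 < C) (h : c' ≤ c) (X : ℕ) (hX : 2 ≤ X) :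
    C * X / (Real.log X) ^ c ≤ (C * (Real.log 2) ^ (c' - c)) * X / (Real.log X) ^ c' := by
  have hl : 0 < Real.log 2 := Real.log_pos (by norm_num)
  have hL : Real.log 2 ≤ Real.log X := Real.log_le_log (by norm_num) (by exact_mod_cast hX)
  have hL0 : 0 < Real.log X := hl.trans_le hL
  have h1 : (Real.log X) ^ (c' - c) ≤ (Real.log 2) ^ (c' - c) :=
    Real.rpow_le_rpow_of_nonpos hl hL (by linarith)
  have h2 : (Real.log X) ^ c' = (Real.log X) ^ (c' - c) * (Real.log X) ^ c := by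
    rw [← Real.rpow_add hL0]
    congr 1
    ring
  have h3 : 0 < (Real.log X) ^ c := Real.rpow_pos_of_pos hL0 _
  have h4 : 0 < (Real.log X) ^ (c' - c) := Real.rpow_pos_of_pos hL0 _
  rw [h2, div_le_div_iff₀ h3 (mul_pos h4 h3)]
  have h5 : 0 ≤ C * X * (Real.log X) ^ c := by positivity
  calc C * X * ((Real.log X) ^ (c' - c) * (Real.log X) ^ c)
      = (C * X * (Real.log X) ^ c) * (Real.log X) ^ (c' - c) := by ring
    _ ≤ (C * X * (Real.log X) ^ c) * (Real.log 2) ^ (c' - c) := mul_le_mul_of_nonneg_left h1 h5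
    _ = C * (Real.log 2) ^ (c' - c) * X * (Real.log X) ^ c := by ring

theorem good_add {N1 N2 : ℕ → ℝ} (h1 : Good N1) (h2 : Good N2) :
    Good (fun X => N1 X + N2 X) := by
  obtain ⟨C1, c1, hC1, hc1, h1⟩ := h1
  obtain ⟨C2, c2, hC2, hc2, h2⟩ := h2
  have hl : 0 < Real.log 2 := Real.log_pos (by norm_num)
  refine ⟨C1 * (Real.log 2) ^ (min c1 c2 - c1) + C2 * (Real.log 2) ^ (min c1 c2 - c2),
    min c1 c2, ?_, lt_min hc1 hc2, fun X hX => ?_⟩
  · have h3 : 0 < (Real.log 2) ^ (min c1 c2 - c1) := Real.rpow_pos_of_pos hl _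
    have h4 : 0 < (Real.log 2) ^ (min c1 c2 - c2) := Real.rpow_pos_of_pos hl _
    positivity
  · have h3 := (h1 X hX).trans (weaken hC1 (min_le_left c1 c2) X hX)
    have h4 := (h2 X hX).trans (weaken hC2 (min_le_right c1 c2) X hX)
    rw [add_mul, add_div]
    exact add_le_add h3 h4

theorem good_sum {α : Type} [DecidableEq α] (Ω : Finset α) (N : α → ℕ → ℝ)
    (h : ∀ p ∈ Ω, Good (N p)) : Good (fun X => ∑ p ∈ Ω, N p X) := by
  induction Ω using Finset.induction_on with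
  | empty => simpa using good_zero
  | insert a s ha ih =>
    have h1 := good_add (h a (mem_insert_self _ _)) (ih fun p hp => h p (mem_insert_of_mem hp))
    have h2 : (fun X => ∑ p ∈ insert a s, N p X) = fun X => N a X + ∑ p ∈ s, N p X := by
      funext X
      rw [Finset.sum_insert ha]
    rw [h2]
    exact h1

variable {f : ℤ[X]} {ι : Type} [Fintype ι] [DecidableEq ι]

private theorem lin_form {g : ℤ[X]} (hg : g.natDegree = 1) :
    g = C (g.coeff 1) * X + C (g.coeff 0) := eq_X_add_C_of_natDegree_le_one hg.le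

private theorem lin_ne {g : ℤ[X]} (hg : g.natDegree = 1) : g.coeff 1 ≠ 0 := by
  have h0 : g ≠ 0 := by
    rintro rfl
    simp at hg
  have h1 := leadingCoeff_ne_zero.2 h0
  rwa [leadingCoeff, hg] at h1

private theorem lin_eval {g : ℤ[X]} (hg : g.natDegree = 1) (x : ℤ) :
    g.eval x = g.coeff 1 * x + g.coeff 0 := by
  conv_lhs => rw [lin_form hg]
  simp

private theorem cross_ne (dt : FData f ι) {i j : ι} (hij : i ≠ j) (hi : (dt.g i).natDegree = 1)
    (hj : (dt.g j).natDegree = 1) :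
    (dt.g i).coeff 1 * (dt.g j).coeff 0 - (dt.g j).coeff 1 * (dt.g i).coeff 0 ≠ 0 := by
  intro h0
  obtain ⟨u, v, huv⟩ := dt.bez i j hij
  have hai : (((dt.g i).coeff 1 : ℤ) : ℚ) ≠ 0 := by exact_mod_cast lin_ne hi
  have h0' : (((dt.g i).coeff 1 : ℤ) : ℚ) * (((dt.g j).coeff 0 : ℤ) : ℚ) -
      (((dt.g j).coeff 1 : ℤ) : ℚ) * (((dt.g i).coeff 0 : ℤ) : ℚ) = 0 := by exact_mod_cast h0
  obtain ⟨r, hr⟩ : ∃ r : ℚ, (((dt.g i).coeff 1 : ℤ) : ℚ) * r + (((dt.g i).coeff 0 : ℤ) : ℚ) = 0 :=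
    ⟨-(((dt.g i).coeff 0 : ℤ) : ℚ) / (((dt.g i).coeff 1 : ℤ) : ℚ), by field_simp; ring⟩
  have h1 : ((dt.g i).map (Int.castRingHom ℚ)).eval r = 0 := by
    rw [lin_form hi]
    simpa using hr
  have h2 : ((dt.g j).map (Int.castRingHom ℚ)).eval r = 0 := by
    have h3 : (((dt.g j).coeff 1 : ℤ) : ℚ) * r + (((dt.g j).coeff 0 : ℤ) : ℚ) = 0 := by
      apply mul_left_cancel₀ hai
      linear_combination h0' + (((dt.g j).coeff 1 : ℤ) : ℚ) * hr
    rw [lin_form hj]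
    simpa using h3
  have h := congrArg (fun P : ℤ[X] => (P.map (Int.castRingHom ℚ)).eval r) huv
  simp only [Polynomial.map_mul, Polynomial.map_add, map_C, eval_mul, eval_add, eval_C] at h
  rw [h1, h2, mul_zero, mul_zero, add_zero] at h
  have h3 : (Int.castRingHom ℚ) (dt.B : ℤ) ≠ 0 := by
    simpa using dt.B_ne
  exact h3 h.symm

/-- `q_i` -/
noncomputable def qq (dt : FData f ι) (k : ι) (τ : ℤ) (i : ι) : ℤ[X] :=
  C ((dt.g i).coeff 1 * τ) * X ^ 2 +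
    C ((dt.g k).coeff 1 * (dt.g i).coeff 0 - (dt.g i).coeff 1 * (dt.g k).coeff 0)

/-- the quartic -/
noncomputable def FF (dt : FData f ι) (k : ι) (τ : ℤ) : ℤ[X] :=
  C (dt.b * dt.c * τ) * ∏ i ∈ univ.erase k, qq dt k τ i

private theorem quad_sqf (α β : ℚ) (hα : α ≠ 0) (hβ : β ≠ 0) :
    Squarefree (C α * X ^ 2 + C β : ℚ[X]) := by
  apply Polynomial.Separable.squarefree
  have hder : derivative (C α * X ^ 2 + C β : ℚ[X]) = C (2 * α) * X := by
    simp only [derivative_add, derivative_C, add_zero, derivative_C_mul, derivative_X_pow]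
    rw [C_mul]
    simp
    ring
  rw [Polynomial.separable_def, hder]
  refine ⟨C β⁻¹, -(C (2 * β)⁻¹ * X), ?_⟩
  have h1 : (C β⁻¹ : ℚ[X]) * C β = 1 := by
    rw [← C_mul, inv_mul_cancel₀ hβ, C_1]
  have h2 : (C (2 * β)⁻¹ : ℚ[X]) * C (2 * α) = C β⁻¹ * C α := by
    rw [← C_mul, ← C_mul]
    congr 1
    field_simp
  linear_combination h1 - X ^ 2 * h2

private theorem qq_map (dt : FData f ι) (k : ι) (τ : ℤ) (i : ι) :
    (qq dt k τ i).map (Int.castRingHom ℚ) = C ((((dt.g i).coeff 1 * τ : ℤ)) : ℚ) * X ^ 2 +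
      C ((((dt.g k).coeff 1 * (dt.g i).coeff 0 - (dt.g i).coeff 1 * (dt.g k).coeff 0 : ℤ)) : ℚ) := by
  rw [qq, Polynomial.map_add, Polynomial.map_mul, Polynomial.map_C, Polynomial.map_C,
    Polynomial.map_pow, Polynomial.map_X]
  rfl

private theorem qq_sqf (dt : FData f ι) (hlin : ∀ i, (dt.g i).natDegree = 1) {k i : ι}
    (hik : i ≠ k) {τ : ℤ} (hτ : τ ≠ 0) : Squarefree ((qq dt k τ i).map (Int.castRingHom ℚ)) := by
  rw [qq_map]
  apply quad_sqf
  · exact_mod_cast mul_ne_zero (lin_ne (hlin i)) hτ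
  · exact_mod_cast cross_ne dt hik.symm (hlin k) (hlin i)

private theorem qq_coprime (dt : FData f ι) (hlin : ∀ i, (dt.g i).natDegree = 1) {k i j : ι}
    (hij : i ≠ j) {τ : ℤ} :
    IsCoprime ((qq dt k τ i).map (Int.castRingHom ℚ)) ((qq dt k τ j).map (Int.castRingHom ℚ)) := by
  rw [qq_map, qq_map]
  obtain ⟨m, hm⟩ : ∃ m : ℚ, m = (((dt.g k).coeff 1 *
      ((dt.g j).coeff 1 * (dt.g i).coeff 0 - (dt.g i).coeff 1 * (dt.g j).coeff 0) : ℤ) : ℚ) :=
    ⟨_, rfl⟩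
  have hm0 : m ≠ 0 := by
    rw [hm]
    exact_mod_cast mul_ne_zero (lin_ne (hlin k)) (cross_ne dt hij.symm (hlin j) (hlin i))
  have h1 : (C m⁻¹ : ℚ[X]) * C m = 1 := by
    rw [← C_mul, inv_mul_cancel₀ hm0, C_1]
  refine ⟨C m⁻¹ * C (((dt.g j).coeff 1 : ℤ) : ℚ), -(C m⁻¹ * C (((dt.g i).coeff 1 : ℤ) : ℚ)), ?_⟩
  rw [← h1, hm]
  push_cast
  simp only [C_mul, C_sub]
  ring

private theorem FF_sqf (dt : FData f ι) (hlin : ∀ i, (dt.g i).natDegree = 1) (k : ι) {τ : ℤ}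
    (hτ : τ ≠ 0) : Squarefree ((FF dt k τ).map (Int.castRingHom ℚ)) := by
  have hT : ((dt.b * dt.c * τ : ℤ) : ℚ) ≠ 0 := by
    exact_mod_cast mul_ne_zero (mul_ne_zero dt.b_ne dt.c_ne) hτ
  have h1 : (FF dt k τ).map (Int.castRingHom ℚ) =
      C ((dt.b * dt.c * τ : ℤ) : ℚ) * ∏ i ∈ univ.erase k, (qq dt k τ i).map (Int.castRingHom ℚ) := by
    rw [FF, Polynomial.map_mul, Polynomial.map_C, Polynomial.map_prod]
    rfl
  rw [h1]
  have hu : IsUnit (C ((dt.b * dt.c * τ : ℤ) : ℚ)) :=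
    Polynomial.isUnit_C.mpr (isUnit_iff_ne_zero.mpr hT)
  rw [(associated_unit_mul_left (∏ i ∈ univ.erase k,
    (qq dt k τ i).map (Int.castRingHom ℚ)) _ hu).squarefree_iff]
  apply Finset.squarefree_prod_of_pairwise_isCoprime
  · intro i _ j _ hij
    exact (qq_coprime dt hlin hij).isRelPrime
  · intro i hi
    exact qq_sqf dt hlin (Finset.ne_of_mem_erase hi) hτ

private theorem qq_deg (dt : FData f ι) (hlin : ∀ i, (dt.g i).natDegree = 1) (k i : ι) {τ : ℤ}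
    (hτ : τ ≠ 0) : (qq dt k τ i).natDegree = 2 := by
  rw [qq, natDegree_add_C, natDegree_C_mul_X_pow 2 _ (mul_ne_zero (lin_ne (hlin i)) hτ)]

private theorem FF_deg (dt : FData f ι) (hlin : ∀ i, (dt.g i).natDegree = 1)
    (hcard : Fintype.card ι = 3) (k : ι) {τ : ℤ} (hτ : τ ≠ 0) : (FF dt k τ).natDegree = 4 := by
  have hq : ∀ i, qq dt k τ i ≠ 0 := by
    intro i h
    have := qq_deg dt hlin k i hτ
    rw [h] at this
    simp at this
  rw [FF, natDegree_C_mul (mul_ne_zero (mul_ne_zero dt.b_ne dt.c_ne) hτ),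
    natDegree_prod _ _ (fun i _ => hq i), Finset.sum_congr rfl (fun i _ => qq_deg dt hlin k i hτ),
    Finset.sum_const, Finset.card_erase_of_mem (Finset.mem_univ k), Finset.card_univ, hcard]
  rfl

private theorem split_point (dt : FData f ι) (hlin : ∀ i, (dt.g i).natDegree = 1)
    (hcard : Fintype.card ι = 3) {D x y t : ℤ} {E : ι → ℕ} {τ : ι → ℤ} (hy : y ≠ 0)
    (hyx : y ^ 2 = D * f.eval x) (hdesc : IsDesc dt D x t E τ) {k : ι} (hk : E k = 1) :
    ∃ u w : ℤ, w ≠ 0 ∧ w ^ 2 = D * (FF dt k (τ k)).eval u := by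
  obtain ⟨u, hu0, hu⟩ := hdesc.2.2.2.2.2 k
  rw [hk, Nat.cast_one, mul_one] at hu
  have ha : (dt.g k).coeff 1 ≠ 0 := lin_ne (hlin k)
  have h1 : ∀ i, (qq dt k (τ k) i).eval u = (dt.g k).coeff 1 * (dt.g i).eval x := by
    intro i
    rw [lin_eval (hlin i) x]
    rw [lin_eval (hlin k) x] at hu
    simp only [qq, eval_add, eval_mul, eval_C, eval_pow, eval_X]
    linear_combination (-(dt.g i).coeff 1) * hu
  have h2 : (FF dt k (τ k)).eval u = dt.b * dt.c * τ k *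
      ((dt.g k).coeff 1 ^ 2 * ∏ i ∈ univ.erase k, (dt.g i).eval x) := by
    rw [FF, eval_mul, eval_C, eval_prod, Finset.prod_congr rfl (fun i _ => h1 i),
      Finset.prod_mul_distrib, Finset.prod_const, Finset.card_erase_of_mem (Finset.mem_univ k),
      Finset.card_univ, hcard]
  have h3 : dt.b * f.eval x = dt.c * (τ k * u ^ 2 * ∏ i ∈ univ.erase k, (dt.g i).eval x) := by
    have h := congrArg (Polynomial.eval x) dt.fac
    rw [eval_mul, eval_C, eval_mul, eval_C, eval_prod,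
      ← Finset.mul_prod_erase univ _ (Finset.mem_univ k), hu] at h
    exact h
  have h4 : D * (FF dt k (τ k)).eval u * u ^ 2 = ((dt.g k).coeff 1 * dt.b * y) ^ 2 := by
    rw [h2]
    linear_combination (-(D * dt.b * (dt.g k).coeff 1 ^ 2)) * h3 -
      ((dt.g k).coeff 1 * dt.b) ^ 2 * hyx
  have h5 : u ^ 2 ∣ ((dt.g k).coeff 1 * dt.b * y) ^ 2 :=
    ⟨D * (FF dt k (τ k)).eval u, by rw [← h4]; ring⟩
  obtain ⟨w, hw⟩ := (Int.pow_dvd_pow_iff two_ne_zero).1 h5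
  refine ⟨u, w, ?_, ?_⟩
  · rintro rfl
    rw [mul_zero] at hw
    exact mul_ne_zero (mul_ne_zero ha dt.b_ne) hy hw
  · apply mul_left_cancel₀ (pow_ne_zero 2 hu0)
    rw [hw] at h4
    linear_combination -h4

private theorem tw_finite (F : ℤ[X]) (X : ℕ) : (TwSet F X).Finite := by
  refine (Set.finite_Icc (-(X : ℤ)) X).subset ?_
  rintro D ⟨-, h, -⟩
  exact abs_le.1 h

theorem split3 {f : ℤ[X]} {ι : Type} [Fintype ι] [DecidableEq ι] (dt : FData f ι)
    (hd : f.natDegree = 3) (hlin : ∀ i, (dt.g i).natDegree = 1)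
    (H : ∀ F : ℤ[X], Squarefree (F.map (Int.castRingHom ℚ)) → F.natDegree = 4 →
      ∃ C c : ℝ, 0 < C ∧ 0 < c ∧ ∀ X : ℕ, 2 ≤ X →
        ((TwSet F X).ncard : ℝ) ≤ C * X / (Real.log X) ^ c) :
    ∃ C c : ℝ, 0 < C ∧ 0 < c ∧ ∀ X : ℕ, 2 ≤ X →
      ((DegSet dt ∩ {D : ℤ | |D| ≤ (X : ℤ)}).ncard : ℝ) ≤ C * X / (Real.log X) ^ c := by
  classical
  have hB0 : (dt.B : ℤ) ≠ 0 := by exact_mod_cast dt.B_ne
  have hcard : Fintype.card ι = 3 := by
    have h1 := sum_deg dt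
    rw [Finset.sum_congr rfl (fun i _ => hlin i), hd] at h1
    simpa using h1
  obtain ⟨Ω, hΩ⟩ : ∃ Ω : Finset (ι × ℤ), Ω = univ ×ˢ (divB dt).filter (fun t => t ≠ 0) := ⟨_, rfl⟩
  have hgood : Good (fun X => ∑ p ∈ Ω, ((TwSet (FF dt p.1 p.2) X).ncard : ℝ)) := by
    refine good_sum Ω (fun p X => ((TwSet (FF dt p.1 p.2) X).ncard : ℝ)) ?_
    intro p hp
    rw [hΩ, Finset.mem_product, Finset.mem_filter] at hp
    exact H _ (FF_sqf dt hlin p.1 hp.2.2) (FF_deg dt hlin hcard p.1 hp.2.2)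
  obtain ⟨C, c, hC, hc, h⟩ := hgood
  refine ⟨C, c, hC, hc, fun X hX => le_trans ?_ (h X hX)⟩
  have hsub : DegSet dt ∩ {D : ℤ | |D| ≤ (X : ℤ)} ⊆ ⋃ p ∈ Ω, TwSet (FF dt p.1 p.2) X := by
    rintro D ⟨⟨hD, x, y, t, E, τ, I, hy, hyx, hdesc, -, hnd⟩, hDX⟩
    unfold NonDeg at hnd
    push Not at hnd
    obtain ⟨-, hc', hE⟩ := hnd
    obtain ⟨k, hk⟩ : ∃ k, k ∉ I := by
      by_contra hcon
      push Not at hcon
      have h1 : I = univ := Finset.eq_univ_iff_forall.2 hcon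
      rw [h1, Finset.card_univ, hcard] at hc'
      exact absurd hc' (lt_irrefl 3)
    have hEne : E k ≠ 0 :=
      Finset.prod_ne_zero_iff.1 hdesc.2.2.2.1.ne_zero k (Finset.mem_univ k)
    have hEk : E k = 1 := by
      have h1 := hE k hk
      omega
    have hτ0 : τ k ≠ 0 := by
      intro h0
      have h1 := hdesc.2.1 k
      rw [h0, zero_dvd_iff] at h1
      exact hB0 h1
    have hτB : τ k ∈ divB dt := by
      have h1 := hdesc.2.1 k
      have h2 : |τ k| ≤ (dt.B : ℤ) := Int.le_of_dvd (by positivity) ((abs_dvd _ _).mpr h1)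
      rw [divB, Finset.mem_filter, Finset.mem_Icc]
      exact ⟨abs_le.mp h2, h1⟩
    obtain ⟨u, w, hw0, hw⟩ := split_point dt hlin hcard hy hyx hdesc hEk
    rw [Set.mem_iUnion₂]
    refine ⟨(k, τ k), ?_, hD, hDX, u, w, hw0, hw⟩
    rw [hΩ, Finset.mem_product, Finset.mem_filter]
    exact ⟨Finset.mem_univ _, hτB, hτ0⟩
  have hfin : (⋃ p ∈ Ω, TwSet (FF dt p.1 p.2) X).Finite :=
    Set.Finite.biUnion (Finset.finite_toSet Ω) fun p _ => tw_finite _ X
  have h1 := (Set.ncard_le_ncard hsub hfin).trans (Finset.set_ncard_biUnion_le Ω _)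
  have h2 : ((DegSet dt ∩ {D : ℤ | |D| ≤ (X : ℤ)}).ncard : ℝ) ≤
      ∑ p ∈ Ω, ((TwSet (FF dt p.1 p.2) X).ncard : ℝ) := by
    exact_mod_cast h1
  exact h2

end Pool.Agent.Helper32.TW
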