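import Mathlib

/-!
# TW5: the points of the conic `Y² = C (A z² + B z + C)` through the trivial point

`w = Y/C`, `(w - 1)/z = p/q` in lowest terms, `N = A q² - C p²`, `v = 2 C p - B q`: `z N = q v`, and `N` divides `C² (4 A C - B²)`.
-/

set_option autoImplicit false

namespace Pool.Agent.Helper32.TW

theorem conic (A B C z Y : ℤ) (hC : C ≠ 0) (hΔ : 4 * A * C - B ^ 2 ≠ 0)
    (hz : z ≠ 0) (hzB : A * z + B ≠ 0) (h : Y ^ 2 = C * (A * z ^ 2 + B * z + C)) :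
    ∃ p q : ℤ, p ≠ 0 ∧ q ≠ 0 ∧ IsCoprime p q ∧ A * q ^ 2 - C * p ^ 2 ≠ 0 ∧
      (A * q ^ 2 - C * p ^ 2) ∣ C ^ 2 * (4 * A * C - B ^ 2) ∧
      z * (A * q ^ 2 - C * p ^ 2) = q * (2 * C * p - B * q) ∧
      2 * C * p - B * q ≠ 0 ∧ 2 * A * q - B * p ≠ 0 := by
  -- `(Y - C)(Y + C) = C z (A z + B)`
  have h1 : (Y - C) * (Y + C) = C * z * (A * z + B) := by linear_combination h
  have hne : C * z * (A * z + B) ≠ 0 := mul_ne_zero (mul_ne_zero hC hz) hzB
  have hY : Y - C ≠ 0 := by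
    intro h0
    rw [h0, zero_mul] at h1
    exact hne h1.symm
  have hCz : C * z ≠ 0 := mul_ne_zero hC hz
  obtain ⟨g, hg⟩ : ∃ g : ℤ, g = (Int.gcd (Y - C) (C * z) : ℤ) := ⟨_, rfl⟩
  have hg0 : g ≠ 0 := by
    rw [hg]
    intro h0
    have h2 : Int.gcd (Y - C) (C * z) = 0 := by exact_mod_cast h0
    exact hY (Int.gcd_eq_zero_iff.1 h2).1
  obtain ⟨p, hp⟩ : g ∣ Y - C := by
    rw [hg]
    exact Int.gcd_dvd_left ..
  obtain ⟨q, hq⟩ : g ∣ C * z := by
    rw [hg]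
    exact Int.gcd_dvd_right ..
  have hp0 : p ≠ 0 := by
    rintro rfl
    rw [mul_zero] at hp
    exact hY hp
  have hq0 : q ≠ 0 := by
    rintro rfl
    rw [mul_zero] at hq
    exact hCz hq
  have hcop : IsCoprime p q := by
    have h2 := Int.gcd_eq_gcd_ab (Y - C) (C * z)
    rw [← hg] at h2
    refine ⟨Int.gcdA (Y - C) (C * z), Int.gcdB (Y - C) (C * z), ?_⟩
    apply mul_left_cancel₀ hg0
    linear_combination (-1 : ℤ) * h2 - (Int.gcdA (Y - C) (C * z)) * hp -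
      (Int.gcdB (Y - C) (C * z)) * hq
  -- `p (Y + C) = q (A z + B)`
  have h2 : p * (Y + C) = q * (A * z + B) := by
    apply mul_left_cancel₀ hg0
    linear_combination h1 - (Y + C) * hp + (A * z + B) * hq
  -- `g N = C v`
  have h3 : g * (A * q ^ 2 - C * p ^ 2) = C * (2 * C * p - B * q) := by
    linear_combination (-C) * h2 + C * p * hp - A * q * hq
  have h4 : z * (A * q ^ 2 - C * p ^ 2) = q * (2 * C * p - B * q) := by
    apply mul_left_cancel₀ hC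
    linear_combination q * h3 + (A * q ^ 2 - C * p ^ 2) * hq
  have hkey : A * q ^ 2 - C * p ^ 2 = 0 ∨ 2 * C * p - B * q = 0 → False := by
    intro h5
    have h6 : A * q ^ 2 - C * p ^ 2 = 0 ∧ 2 * C * p - B * q = 0 := by
      rcases h5 with h5 | h5
      · refine ⟨h5, ?_⟩
        rw [h5, mul_zero] at h3
        exact (mul_eq_zero.1 h3.symm).resolve_left hC
      · refine ⟨?_, h5⟩
        rw [h5, mul_zero] at h3
        exact (mul_eq_zero.1 h3).resolve_left hg0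
    have h7 : (4 * A * C - B ^ 2) * q ^ 2 = 0 := by
      linear_combination 4 * C * h6.1 + (2 * C * p + B * q) * h6.2
    rcases mul_eq_zero.1 h7 with h8 | h8
    · exact hΔ h8
    · exact hq0 (pow_eq_zero_iff two_ne_zero |>.1 h8)
  have hN : A * q ^ 2 - C * p ^ 2 ≠ 0 := fun h5 => hkey (Or.inl h5)
  have hv : 2 * C * p - B * q ≠ 0 := fun h5 => hkey (Or.inr h5)
  refine ⟨p, q, hp0, hq0, hcop, hN, ?_, h4, hv, ?_⟩
  · -- `N ∣ C² Δ`
    obtain ⟨a, b, hab⟩ := hcop.pow_left (m := 2)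
    obtain ⟨a', b', hab'⟩ := hcop.pow (m := 2) (n := 2)
    have e1 : C = (-a) * (A * q ^ 2 - C * p ^ 2) + (a * A * q + b * C) * q := by
      linear_combination (-C) * hab
    have e2 : C * (4 * A * C - B ^ 2) =
        (a' * B ^ 2 + b' * C * (4 * C)) * (A * q ^ 2 - C * p ^ 2) +
          (a' * (-(A * (2 * C * p - B * q) - 4 * A * C * p)) +
            b' * C * ((2 * C * p - B * q) + 2 * B * q)) * (2 * C * p - B * q) := by
      linear_combination (-(C * (4 * A * C - B ^ 2))) * hab'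
    have e3 : C ^ 2 * (4 * A * C - B ^ 2) = C * (C * (4 * A * C - B ^ 2)) := by ring
    rw [e3]
    obtain ⟨N, hNd⟩ : ∃ N, N = A * q ^ 2 - C * p ^ 2 := ⟨_, rfl⟩
    obtain ⟨v, hvd⟩ : ∃ v, v = 2 * C * p - B * q := ⟨_, rfl⟩
    rw [← hNd, ← hvd] at e2 h4
    rw [← hNd] at e1
    rw [← hNd]
    have e4 : N ∣ q * v := ⟨z, by rw [← h4]; ring⟩
    obtain ⟨r1, hr1⟩ : ∃ r1, r1 = a * A * q + b * C := ⟨_, rfl⟩
    obtain ⟨r2, hr2⟩ : ∃ r2, r2 = a' * (-(A * v - 4 * A * C * p)) + b' * C * (v + 2 * B * q) :=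
      ⟨_, rfl⟩
    obtain ⟨r3, hr3⟩ : ∃ r3, r3 = a' * B ^ 2 + b' * C * (4 * C) := ⟨_, rfl⟩
    rw [← hr2, ← hr3] at e2
    rw [← hr1] at e1
    have e5 : C * (C * (4 * A * C - B ^ 2)) = N * (-a * (r3 * N + r2 * v) + r1 * q * r3) +
        r1 * r2 * (q * v) := by
      rw [e2]
      nth_rewrite 1 [e1]
      ring
    rw [e5]
    exact dvd_add (dvd_mul_right _ _) (Dvd.dvd.mul_left e4 _)
  · -- `2 A q - B p ≠ 0`
    intro h5
    -- `g (2 A q - B p) = ...`
    have h6 : (A * z + B) * (4 * A * C - B ^ 2) * q * C = 0 := by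
      have h7 : A * q ^ 2 - C * p ^ 2 ≠ 0 := hN
      have h8 : (A * z + B) * (A * q ^ 2 - C * p ^ 2) = p * C * (2 * A * q - B * p) := by
        linear_combination A * h4
      rw [h5, mul_zero] at h8
      rw [(mul_eq_zero.1 h8).resolve_right h7]
      ring
    have h7 : (A * z + B) * (4 * A * C - B ^ 2) * q * C ≠ 0 :=
      mul_ne_zero (mul_ne_zero (mul_ne_zero hzB hΔ) hq0) hC
    exact h7 h6

end Pool.Agent.Helper32.TW
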