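import Mathlib
import Pool.Agent.Helper38.TW.Defs3
import Pool.Agent.Helper38.TW.FExists
import Pool.Agent.Helper5.FM.Poly
import Pool.Agent.Helper32.TW.Conic
import Pool.Agent.Helper45.TW.SplitSq
import Pool.Agent.Helper5.TW.ClassQuad

/-!
# TW5: the second descent for cubics with exactly one rational root

`f` of degree `3`, `g_i = a X + b₀`, `g_k` an irreducible quadratic, `D` in `DegSet3`: `I = {i}`, `E_k = 1`, `τ_k kap` a square. With `z = g_i(x) = τ E u²`: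
`a² g_k(x) = A z² + B z + C`, `kap = a² C`, so `C (A z² + B z + C) = Y²`. `conic` gives `p, q, N, v` with `z N = q v`, `N ∣ C² Δ`. `split_sq`: `q = τ₁ E₁ u₁²`, `v = τ₂ E₂ u₂²`, `E₁ E₂ ≤ E ≤ X`.
If `E₁ ≤ √X`: `(C p)² = C (A q² - N)`. If `E₂ ≤ √X`: `(Δ q - B v)² = 4 C (A v² + N Δ)`. In both cases `class_quad` bounds the number of points for fixed `E₁` resp. `E₂`.
-/

set_option autoImplicit false

namespace Pool.Agent.Helper32.TW

open Finset Polynomial Pool.Agent.Helper38.TW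

theorem two_sign (α β γ : ℤ) (hα : α ≠ 0) (hβ : β ≠ 0) (hγ : γ ≠ 0) :
    ∃ N : ℕ, ∀ m : ℤ, ∀ (S : Finset ℤ) (a y : ℤ → ℤ), (∀ x ∈ S, ∃ u : ℤ, a x = m * u ^ 2) →
      (∀ x ∈ S, y x ≠ 0 ∧ (y x) ^ 2 = γ * (α * (a x) ^ 2 + β)) →
      (∀ x ∈ S, ∀ x' ∈ S, a x = a x' → y x = y x' → x = x') → S.card ≤ N := by
  classical
  obtain ⟨N, hN⟩ := Pool.Agent.Helper5.TW.class_quad α β γ hα hβ hγ
  refine ⟨N * 2, fun m S a y h1 h2 h3 => ?_⟩
  have hcol : S.card ≤ N * (S.image (fun x => decide (0 < y x))).card := by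
    refine Finset.card_le_mul_card_image S N ?_
    intro b _
    have hinj : Set.InjOn a ↑(S.filter (fun x => decide (0 < y x) = b)) := by
      intro x hx x' hx' hxx'
      rw [mem_coe, mem_filter] at hx hx'
      refine h3 x hx.1 x' hx'.1 hxx' ?_
      have e1 := (h2 x hx.1).2
      have e2 := (h2 x' hx'.1).2
      rw [hxx', ← e2] at e1
      rcases sq_eq_sq_iff_eq_or_eq_neg.1 e1 with h | h
      · exact h
      · exfalso
        have h4 : decide (0 < y x) = decide (0 < y x') := hx.2.trans hx'.2.symm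
        have h5 : (0 < y x) ↔ (0 < y x') := decide_eq_decide.1 h4
        have h6 := (h2 x hx.1).1
        have h7 := (h2 x' hx'.1).1
        omega
    rw [← Finset.card_image_of_injOn hinj]
    refine hN m _ ?_
    intro v hv
    obtain ⟨x, hx, rfl⟩ := mem_image.1 hv
    have hx1 := (mem_filter.1 hx).1
    exact ⟨h1 x hx1, y x, h2 x hx1⟩
  have hcard2 : (S.image (fun x => decide (0 < y x))).card ≤ 2 := by
    refine (Finset.card_le_univ _).trans ?_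
    simp
  exact hcol.trans (Nat.mul_le_mul_left N hcard2)

private def Xa (a b₀ A B C N m : ℤ) : Set ℤ :=
  {x | ∃ p q : ℤ, (∃ u : ℤ, q = m * u ^ 2) ∧ (a * x + b₀) * N = q * (2 * C * p - B * q) ∧
    N = A * q ^ 2 - C * p ^ 2 ∧ p ≠ 0}

private def Xb (a b₀ A B C N m : ℤ) : Set ℤ :=
  {x | ∃ p q : ℤ, (∃ u : ℤ, 2 * C * p - B * q = m * u ^ 2) ∧
    (a * x + b₀) * N = q * (2 * C * p - B * q) ∧
    N = A * q ^ 2 - C * p ^ 2 ∧ 2 * A * q - B * p ≠ 0}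

private theorem xa_bound (a b₀ A B C N : ℤ) (ha : a ≠ 0) (hA : A ≠ 0) (hC : C ≠ 0) (hN : N ≠ 0) :
    ∃ n : ℕ, ∀ m, (Xa a b₀ A B C N m).Finite ∧ (Xa a b₀ A B C N m).ncard ≤ n := by
  obtain ⟨n, hn⟩ := two_sign A (-N) C hA (neg_ne_zero.2 hN) hC
  refine ⟨n, fun m => ?_⟩
  have hS : ∀ S : Finset ℤ, (↑S : Set ℤ) ⊆ Xa a b₀ A B C N m → S.card ≤ n := by
    intro S hS
    have hex : ∀ x ∈ S, ∃ p q : ℤ, (∃ u : ℤ, q = m * u ^ 2) ∧
        (a * x + b₀) * N = q * (2 * C * p - B * q) ∧ N = A * q ^ 2 - C * p ^ 2 ∧ p ≠ 0 :=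
      fun x hx => hS (mem_coe.2 hx)
    choose! p q hu hz hNe hp using hex
    refine hn m S q (fun x => C * p x) hu (fun x hx => ⟨mul_ne_zero hC (hp x hx), ?_⟩) ?_
    · linear_combination C * hNe x hx
    · intro x hx x' hx' h1 h2
      have h3 : p x = p x' := mul_left_cancel₀ hC h2
      have h4 : (a * x + b₀) * N = (a * x' + b₀) * N := by
        rw [hz x hx, hz x' hx', h1, h3]
      have h5 := mul_right_cancel₀ hN h4
      exact mul_left_cancel₀ ha (by linarith)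
  have h1 := Pool.Agent.Helper5.FM.fin_of_bdd (Xa a b₀ A B C N m) (n : ℝ) (fun S h => by
    exact_mod_cast hS S h)
  exact ⟨h1.1, by exact_mod_cast h1.2⟩

private theorem xb_bound (a b₀ A B C N : ℤ) (ha : a ≠ 0) (hA : A ≠ 0) (hC : C ≠ 0) (hN : N ≠ 0)
    (hΔ : 4 * A * C - B ^ 2 ≠ 0) :
    ∃ n : ℕ, ∀ m, (Xb a b₀ A B C N m).Finite ∧ (Xb a b₀ A B C N m).ncard ≤ n := by
  obtain ⟨n, hn⟩ := two_sign A (N * (4 * A * C - B ^ 2)) (4 * C) hA (mul_ne_zero hN hΔ)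
    (mul_ne_zero (by norm_num) hC)
  refine ⟨n, fun m => ?_⟩
  have hS : ∀ S : Finset ℤ, (↑S : Set ℤ) ⊆ Xb a b₀ A B C N m → S.card ≤ n := by
    intro S hS
    have hex : ∀ x ∈ S, ∃ p q : ℤ, (∃ u : ℤ, 2 * C * p - B * q = m * u ^ 2) ∧
        (a * x + b₀) * N = q * (2 * C * p - B * q) ∧ N = A * q ^ 2 - C * p ^ 2 ∧
        2 * A * q - B * p ≠ 0 := fun x hx => hS (mem_coe.2 hx)
    choose! p q hu hz hNe hp using hex
    refine hn m S (fun x => 2 * C * p x - B * q x) (fun x => 2 * C * (2 * A * q x - B * p x)) hu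
      (fun x hx => ⟨mul_ne_zero (mul_ne_zero two_ne_zero hC) (hp x hx), ?_⟩) ?_
    · linear_combination (-(4 * C * (4 * A * C - B ^ 2))) * hNe x hx
    · intro x hx x' hx' h1 h2
      have h1' : 2 * C * p x - B * q x = 2 * C * p x' - B * q x' := h1
      have h2' : 2 * C * (2 * A * q x - B * p x) = 2 * C * (2 * A * q x' - B * p x') := h2
      have h3 : q x = q x' := by
        apply mul_left_cancel₀ hΔ
        linear_combination h2' + B * h1'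
      have h4 : p x = p x' := by
        apply mul_left_cancel₀ (mul_ne_zero two_ne_zero hC)
        rw [h3] at h1'
        linarith
      have h5 : (a * x + b₀) * N = (a * x' + b₀) * N := by
        rw [hz x hx, hz x' hx', h3, h4]
      have h6 := mul_right_cancel₀ hN h5
      exact mul_left_cancel₀ ha (by linarith)
  have h1 := Pool.Agent.Helper5.FM.fin_of_bdd (Xb a b₀ A B C N m) (n : ℝ) (fun S h => by
    exact_mod_cast hS S h)
  exact ⟨h1.1, by exact_mod_cast h1.2⟩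

private noncomputable def dv (K : ℤ) : Finset ℤ := (Icc (-|K|) |K|).filter (fun t => t ∣ K)

private theorem mem_dv {K t : ℤ} (hK : K ≠ 0) (h : t ∣ K) : t ∈ dv K := by
  rw [dv, mem_filter, mem_Icc]
  exact ⟨abs_le.1 (Int.le_of_dvd (abs_pos.2 hK) ((abs_dvd_abs t K).2 h)), h⟩

private theorem dv_dvd {K t : ℤ} (h : t ∈ dv K) : t ∣ K := (mem_filter.1 h).2

/-- the points with `E₁ ≤ s` or `E₂ ≤ s`, or the trivial one -/
private def ZZ (a b₀ A B C M : ℤ) (s : ℕ) : Set ℤ :=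
  {x | A * (a * x + b₀) + B = 0} ∪ ⋃ w ∈ dv (C ^ 2 * (4 * A * C - B ^ 2)) ×ˢ dv M,
    ⋃ e ∈ Icc 1 s, (Xa a b₀ A B C w.1 (w.2 * (e : ℤ)) ∪ Xb a b₀ A B C w.1 (w.2 * (e : ℤ)))

private theorem zz_bound (a b₀ A B C M : ℤ) (ha : a ≠ 0) (hA : A ≠ 0) (hC : C ≠ 0)
    (hΔ : 4 * A * C - B ^ 2 ≠ 0) :
    ∃ n : ℕ, ∀ s : ℕ, (ZZ a b₀ A B C M s).Finite ∧ (ZZ a b₀ A B C M s).ncard ≤ n * (s + 1) := by
  classical
  have hK : C ^ 2 * (4 * A * C - B ^ 2) ≠ 0 := mul_ne_zero (pow_ne_zero 2 hC) hΔ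
  have h1 : ∀ N : ℤ, ∃ n : ℕ, N ≠ 0 →
      ∀ m, (Xa a b₀ A B C N m).Finite ∧ (Xa a b₀ A B C N m).ncard ≤ n := by
    intro N
    by_cases hN : N = 0
    · exact ⟨0, fun h => absurd hN h⟩
    · obtain ⟨n, hn⟩ := xa_bound a b₀ A B C N ha hA hC hN
      exact ⟨n, fun _ => hn⟩
  have h2 : ∀ N : ℤ, ∃ n : ℕ, N ≠ 0 →
      ∀ m, (Xb a b₀ A B C N m).Finite ∧ (Xb a b₀ A B C N m).ncard ≤ n := by
    intro N
    by_cases hN : N = 0
    · exact ⟨0, fun h => absurd hN h⟩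
    · obtain ⟨n, hn⟩ := xb_bound a b₀ A B C N ha hA hC hN hΔ
      exact ⟨n, fun _ => hn⟩
  choose na hna using h1
  choose nb hnb using h2
  have h0 : {x : ℤ | A * (a * x + b₀) + B = 0}.Subsingleton := by
    intro x hx x' hx'
    have hx1 : A * (a * x + b₀) + B = 0 := hx
    have hx2 : A * (a * x' + b₀) + B = 0 := hx'
    apply mul_left_cancel₀ (mul_ne_zero hA ha)
    linear_combination hx1 - hx2
  have hne : ∀ w ∈ dv (C ^ 2 * (4 * A * C - B ^ 2)) ×ˢ dv M, w.1 ≠ 0 := by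
    intro w hw h3
    have h4 := dv_dvd (mem_product.1 hw).1
    rw [h3, zero_dvd_iff] at h4
    exact hK h4
  refine ⟨1 + ∑ w ∈ dv (C ^ 2 * (4 * A * C - B ^ 2)) ×ˢ dv M, (na w.1 + nb w.1), fun s => ?_⟩
  constructor
  · refine h0.finite.union (Set.Finite.biUnion (Finset.finite_toSet _) fun w hw =>
      Set.Finite.biUnion (Finset.finite_toSet _) fun e _ => ?_)
    exact (hna w.1 (hne w hw) _).1.union (hnb w.1 (hne w hw) _).1
  · have e1 : (⋃ w ∈ dv (C ^ 2 * (4 * A * C - B ^ 2)) ×ˢ dv M,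
        ⋃ e ∈ Icc 1 s, (Xa a b₀ A B C w.1 (w.2 * (e : ℤ)) ∪
          Xb a b₀ A B C w.1 (w.2 * (e : ℤ)))).ncard ≤
        ∑ w ∈ dv (C ^ 2 * (4 * A * C - B ^ 2)) ×ˢ dv M, s * (na w.1 + nb w.1) := by
      refine (Finset.set_ncard_biUnion_le _ _).trans (Finset.sum_le_sum fun w hw => ?_)
      refine (Finset.set_ncard_biUnion_le _ _).trans ?_
      refine (Finset.sum_le_card_nsmul _ _ (na w.1 + nb w.1) fun e _ => ?_).trans ?_
      · exact (Set.ncard_union_le _ _).trans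
          (Nat.add_le_add (hna w.1 (hne w hw) _).2 (hnb w.1 (hne w hw) _).2)
      · rw [Nat.card_Icc, smul_eq_mul, Nat.add_sub_cancel]
    have e2 : ({x : ℤ | A * (a * x + b₀) + B = 0}).ncard ≤ 1 := by
      rcases h0.eq_empty_or_singleton with h | ⟨x, h⟩
      · rw [h, Set.ncard_empty]
        exact Nat.zero_le 1
      · rw [h, Set.ncard_singleton]
    rw [← Finset.mul_sum] at e1
    refine (Set.ncard_union_le _ _).trans ((Nat.add_le_add e2 e1).trans ?_)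
    generalize (∑ w ∈ dv (C ^ 2 * (4 * A * C - B ^ 2)) ×ˢ dv M, (na w.1 + nb w.1)) = Q
    nlinarith [Nat.zero_le Q, Nat.zero_le s]

/-- the point lies in `ZZ` -/
private theorem mem_ZZ (a b₀ A B C M x Y τ u : ℤ) (E s : ℕ) (hC : C ≠ 0)
    (hΔ : 4 * A * C - B ^ 2 ≠ 0) (hM : M ≠ 0) (hKM : C ^ 2 * (4 * A * C - B ^ 2) ∣ M)
    (h2C : 2 * C ∣ M) (hτM : τ ∣ M) (hu : u ≠ 0) (hτ : τ ≠ 0) (hE : Squarefree E)
    (hz : a * x + b₀ = τ * E * u ^ 2)
    (hY : Y ^ 2 = C * (A * (a * x + b₀) ^ 2 + B * (a * x + b₀) + C))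
    (hEs : E < (s + 1) * (s + 1)) : x ∈ ZZ a b₀ A B C M s := by
  obtain ⟨z, hzd⟩ : ∃ z, z = a * x + b₀ := ⟨_, rfl⟩
  by_cases h0 : A * z + B = 0
  · left
    rw [hzd] at h0
    exact h0
  right
  have hE0 : (E : ℤ) ≠ 0 := by exact_mod_cast hE.ne_zero
  have hz0 : z ≠ 0 := by
    rw [hzd, hz]
    exact mul_ne_zero (mul_ne_zero hτ hE0) (pow_ne_zero 2 hu)
  rw [← hzd] at hY hz
  obtain ⟨p, q, hp, hq, hcop, hN, hNd, hzN, hv, hpq⟩ := conic A B C z Y hC hΔ hz0 h0 hY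
  obtain ⟨N, hNdef⟩ : ∃ N, N = A * q ^ 2 - C * p ^ 2 := ⟨_, rfl⟩
  rw [← hNdef] at hN hNd hzN
  have hprime : ∀ l : ℕ, l.Prime → (l : ℤ) ∣ q → (l : ℤ) ∣ 2 * C * p - B * q → (l : ℤ) ∣ M := by
    intro l hl h1 h2
    have hli : Prime (l : ℤ) := Nat.prime_iff_prime_int.1 hl
    have h3 : (l : ℤ) ∣ 2 * C * p := by
      have h4 := dvd_add h2 (Dvd.dvd.mul_left h1 B)
      rwa [sub_add_cancel] at h4
    rcases hli.dvd_or_dvd h3 with h4 | h4
    · exact h4.trans h2C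
    · exfalso
      exact hli.not_isUnit (hcop.isUnit_of_dvd' h4 h1)
  obtain ⟨E₁, E₂, τ₁, τ₂, u₁, u₂, hτ₁, hτ₂, hq', hv', hE₁, hE₂, hEE⟩ :=
    Pool.Agent.Helper45.TW.split_sq M q (2 * C * p - B * q) N τ u E hM hq hv hu hprime (hNd.trans hKM) hτM hE (by
      rw [← hzN, hz]
      ring)
  have hK : C ^ 2 * (4 * A * C - B ^ 2) ≠ 0 := mul_ne_zero (pow_ne_zero 2 hC) hΔ
  have hsel : E₁ ≤ s ∨ E₂ ≤ s := by
    by_contra hcon
    push Not at hcon
    have h4 : (s + 1) * (s + 1) ≤ E₁ * E₂ := Nat.mul_le_mul hcon.1 hcon.2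
    omega
  rcases hsel with h | h
  · rw [Set.mem_iUnion₂]
    refine ⟨(N, τ₁), mem_product.2 ⟨mem_dv hK hNd, mem_dv hM hτ₁⟩, ?_⟩
    rw [Set.mem_iUnion₂]
    refine ⟨E₁, mem_Icc.2 ⟨hE₁, h⟩, Or.inl ⟨p, q, ⟨u₁, hq'⟩, ?_, hNdef, hp⟩⟩
    rw [← hzd]
    exact hzN
  · rw [Set.mem_iUnion₂]
    refine ⟨(N, τ₂), mem_product.2 ⟨mem_dv hK hNd, mem_dv hM hτ₂⟩, ?_⟩
    rw [Set.mem_iUnion₂]
    refine ⟨E₂, mem_Icc.2 ⟨hE₂, h⟩, Or.inr ⟨p, q, ⟨u₂, hv'⟩, ?_, hNdef, hpq⟩⟩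
    rw [← hzd]
    exact hzN

variable {f : ℤ[X]} {ι : Type} [Fintype ι] [DecidableEq ι]

/-- `x` determines the squarefree twist -/
private theorem twist_unique {D D' x y y' : ℤ} (hD : Squarefree D) (hD' : Squarefree D')
    (hy : y ≠ 0) (h : y ^ 2 = D * f.eval x) (h' : y' ^ 2 = D' * f.eval x) : D = D' := by
  have hD0 : D ≠ 0 := hD.ne_zero
  have hf0 : f.eval x ≠ 0 := by
    intro h0
    rw [h0, mul_zero] at h
    exact hy (pow_eq_zero_iff two_ne_zero |>.mp h)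
  -- `D D' = w²`
  have h1 : (f.eval x) ^ 2 ∣ (y * y') ^ 2 := by
    refine ⟨D * D', ?_⟩
    rw [mul_pow, h, h']
    ring
  obtain ⟨w, hw⟩ := (Int.pow_dvd_pow_iff two_ne_zero).1 h1
  have h2 : D * D' = w ^ 2 := by
    have h3 : (f.eval x) ^ 2 * (D * D') = (f.eval x) ^ 2 * w ^ 2 := by
      rw [← mul_pow, ← hw, mul_pow, h, h']
      ring
    exact mul_left_cancel₀ (pow_ne_zero 2 hf0) h3
  have h3 : D ∣ w := (hD.dvd_pow_iff_dvd two_ne_zero).mp ⟨D', h2.symm⟩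
  obtain ⟨v, rfl⟩ := h3
  have h4 : D' = D * v ^ 2 := by
    apply mul_left_cancel₀ hD0
    rw [h2]
    ring
  have h5 : IsUnit v := hD' v ⟨D, by rw [h4]; ring⟩
  rcases Int.isUnit_iff.1 h5 with h6 | h6 <;> rw [h4, h6] <;> ring

private theorem scale_eval (g : ℤ[X]) (a b₀ : ℤ) (ha : a ≠ 0) :
    (((scaleRoots g a).eval (-b₀) : ℤ) : ℚ) =
      (a : ℚ) ^ g.natDegree * (g.map (Int.castRingHom ℚ)).eval (-(b₀ : ℚ) / a) := by
  have h1 := scaleRoots_eval₂_mul (p := g) (Int.castRingHom ℚ) (-(b₀ : ℚ) / a) a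
  have h2 : (Int.castRingHom ℚ) a * (-(b₀ : ℚ) / a) = (Int.castRingHom ℚ) (-b₀) := by
    have h3 : (a : ℚ) ≠ 0 := by exact_mod_cast ha
    simp only [eq_intCast, Int.cast_neg]
    field_simp
  rw [h2, eval₂_at_apply] at h1
  rw [eval_map]
  simpa using h1

theorem deg3_second (dt : FData f ι) (i k : ι) (hik : i ≠ k) (huniv : (univ : Finset ι) = {i, k})
    (hi : (dt.g i).natDegree = 1) (hk : (dt.g k).natDegree = 2) :
    ∃ C : ℕ, ∀ X : ℕ, (DegSet3 dt ∩ {D : ℤ | |D| ≤ (X : ℤ)}).Finite ∧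
      (DegSet3 dt ∩ {D : ℤ | |D| ≤ (X : ℤ)}).ncard ≤ C * (Nat.sqrt X + 1) := by
  classical
  have hB0 : (dt.B : ℤ) ≠ 0 := by exact_mod_cast dt.B_ne
  obtain ⟨a, b₀, ha, hlead, hgi, hb0⟩ : ∃ a b₀ : ℤ, a ≠ 0 ∧ (dt.g i).leadingCoeff = a ∧
      dt.g i = C a * X + C b₀ ∧ (dt.g i).coeff 0 = b₀ := by
    refine ⟨(dt.g i).coeff 1, (dt.g i).coeff 0, ?_, ?_, eq_X_add_C_of_natDegree_le_one hi.le, rfl⟩
    · have h1 : (dt.g i).leadingCoeff ≠ 0 := leadingCoeff_ne_zero.2 (dt.f1_g_ne i)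
      rwa [leadingCoeff, hi] at h1
    · rw [leadingCoeff, hi]
  have haQ : (a : ℚ) ≠ 0 := by exact_mod_cast ha
  obtain ⟨α, β, γ, hα, hgk⟩ : ∃ α β γ : ℤ, α ≠ 0 ∧
      dt.g k = C α * X ^ 2 + C β * X + C γ := by
    refine ⟨(dt.g k).coeff 2, (dt.g k).coeff 1, (dt.g k).coeff 0, ?_, ?_⟩
    · have h1 : (dt.g k).leadingCoeff ≠ 0 := leadingCoeff_ne_zero.2 (dt.f1_g_ne k)
      rwa [leadingCoeff, hk] at h1
    · have h1 := (dt.g k).as_sum_range_C_mul_X_pow' (n := 3) (by omega)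
      conv_lhs => rw [h1]
      simp only [Finset.sum_range_succ, Finset.sum_range_zero, pow_zero, mul_one, zero_add, pow_one]
      abel
  -- the irreducible quadratic has no rational root
  obtain ⟨G, hG⟩ : ∃ G : ℚ[X], G = (dt.g k).map (Int.castRingHom ℚ) := ⟨_, rfl⟩
  have hGirr : Irreducible G := by
    rw [hG]
    exact dt.irr k
  have hGdeg : G.natDegree = 2 := by
    rw [hG, natDegree_map_eq_of_injective (Int.castRingHom ℚ).injective_int, hk]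
  have hGnr : ∀ z : ℚ, G.eval z ≠ 0 := by
    intro z hz
    have h3 := Polynomial.degree_eq_one_of_irreducible_of_root hGirr hz
    rw [degree_eq_natDegree hGirr.ne_zero, hGdeg] at h3
    norm_num at h3
  have hGe : ∀ z : ℚ, G.eval z = α * z ^ 2 + β * z + γ := by
    intro z
    rw [hG, hgk]
    simp
  obtain ⟨A, hA⟩ : ∃ A, A = α := ⟨_, rfl⟩
  obtain ⟨B, hB⟩ : ∃ B, B = β * a - 2 * α * b₀ := ⟨_, rfl⟩
  obtain ⟨CC, hCC⟩ : ∃ CC, CC = α * b₀ ^ 2 - β * a * b₀ + γ * a ^ 2 := ⟨_, rfl⟩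
  have hCCQ : (CC : ℚ) = (a : ℚ) ^ 2 * G.eval (-(b₀ : ℚ) / a) := by
    rw [hCC, hGe]
    push_cast
    field_simp
    ring
  have hC0 : CC ≠ 0 := by
    intro h0
    have h1 : (a : ℚ) ^ 2 * G.eval (-(b₀ : ℚ) / a) ≠ 0 := mul_ne_zero (pow_ne_zero 2 haQ) (hGnr _)
    rw [← hCCQ, h0] at h1
    exact h1 (by norm_num)
  have hA0 : A ≠ 0 := by
    rw [hA]
    exact hα
  have hdisc : 4 * α * γ - β ^ 2 ≠ 0 := by
    intro h0
    have h1 := hGnr (-(β : ℚ) / (2 * α))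
    rw [hGe] at h1
    apply h1
    have hαQ : (α : ℚ) ≠ 0 := by exact_mod_cast hα
    have h2 : (4 * α * γ - β ^ 2 : ℚ) = 0 := by exact_mod_cast h0
    field_simp
    linear_combination h2
  have hΔ : 4 * A * CC - B ^ 2 ≠ 0 := by
    have h1 : 4 * A * CC - B ^ 2 = a ^ 2 * (4 * α * γ - β ^ 2) := by
      rw [hA, hB, hCC]
      ring
    rw [h1]
    exact mul_ne_zero (pow_ne_zero 2 ha) hdisc
  have hkap : kap dt i k = CC * a ^ 2 := by
    have h1 : ((kap dt i k : ℤ) : ℚ) = ((CC * a ^ 2 : ℤ) : ℚ) := by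
      unfold kap
      rw [hlead, hb0, hk, Int.cast_mul, scale_eval _ _ _ ha, hk, ← hG, Int.cast_mul, hCCQ]
    exact_mod_cast h1
  obtain ⟨M, hMd⟩ : ∃ M : ℤ, M = CC ^ 2 * (4 * A * CC - B ^ 2) * (2 * CC) * dt.B := ⟨_, rfl⟩
  have hM : M ≠ 0 := by
    rw [hMd]
    exact mul_ne_zero (mul_ne_zero (mul_ne_zero (pow_ne_zero 2 hC0) hΔ)
      (mul_ne_zero two_ne_zero hC0)) hB0
  obtain ⟨n, hn⟩ := zz_bound a b₀ A B CC M ha hA0 hC0 hΔ
  refine ⟨n, fun X => ?_⟩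
  obtain ⟨s, hsdef⟩ : ∃ s : ℕ, s = Nat.sqrt X := ⟨_, rfl⟩
  rw [← hsdef]
  have hpt : ∀ D ∈ DegSet3 dt ∩ {D : ℤ | |D| ≤ (X : ℤ)}, ∃ x ∈ ZZ a b₀ A B CC M s, ∃ y : ℤ,
      y ≠ 0 ∧ y ^ 2 = D * f.eval x := by
    rintro D ⟨⟨hD, x, y, t, E, τ, I, hy, hyx, hdesc, hI, hnd⟩, hDX⟩
    refine ⟨x, ?_, y, hy, hyx⟩
    unfold NonDeg3 NonDeg at hnd
    push Not at hnd
    obtain ⟨⟨hlin, hc, hE⟩, h2⟩ := hnd
    have hkI : k ∉ I := by
      intro h
      have h3 := hlin k h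
      rw [hk] at h3
      norm_num at h3
    have hIi : I = {i} := by
      obtain ⟨j, hj⟩ := hI
      have h3 : ∀ j ∈ I, j = i := by
        intro j hj
        have h4 : j ∈ ({i, k} : Finset ι) := by
          rw [← huniv]
          exact Finset.mem_univ j
        rcases Finset.mem_insert.1 h4 with h5 | h5
        · exact h5
        · rw [Finset.mem_singleton.1 h5] at hj
          exact absurd hj hkI
      exact Finset.eq_singleton_iff_unique_mem.2 ⟨by rw [← h3 j hj]; exact hj, h3⟩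
    have hτ0 : ∀ j, τ j ≠ 0 := by
      intro j h0
      have := hdesc.2.1 j
      rw [h0, zero_dvd_iff] at this
      exact hB0 this
    have hprod : (∏ j, E j) ≠ 0 := hdesc.2.2.2.1.ne_zero
    have hEk : E k = 1 := by
      have h3 := hE k hkI
      have h4 : E k ≠ 0 := Finset.prod_ne_zero_iff.1 hprod k (Finset.mem_univ k)
      omega
    have hsq : IsSquare (τ k * kap dt i k) :=
      h2 (by rw [hIi, Finset.card_singleton]) i (by rw [hIi]; exact Finset.mem_singleton_self i) k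
        hkI
    obtain ⟨w, hw⟩ := hsq
    obtain ⟨u, hu0, hu⟩ := hdesc.2.2.2.2.2 i
    obtain ⟨v, hv0, hv⟩ := hdesc.2.2.2.2.2 k
    have hEprod : ∏ j, E j = E i := by
      rw [huniv, Finset.prod_pair hik, hEk, mul_one]
    have hEi : Squarefree (E i) := by
      rw [← hEprod]
      exact hdesc.2.2.2.1
    have hEX : E i ≤ X := by
      have h5 : |D| = |t| * ((∏ j, E j : ℕ) : ℤ) := by
        rw [hdesc.2.2.1, abs_mul, Nat.abs_cast]
      have ht0 : t ≠ 0 := by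
        rintro rfl
        have := hdesc.1
        rw [zero_dvd_iff] at this
        exact hB0 this
      have h6 : (1 : ℤ) ≤ |t| := Int.one_le_abs ht0
      have h7 : ((∏ j, E j : ℕ) : ℤ) ≤ X := by
        have h8 : |D| ≤ (X : ℤ) := hDX
        rw [h5] at h8
        have h9 : (0 : ℤ) ≤ ((∏ j, E j : ℕ) : ℤ) := Int.natCast_nonneg _
        nlinarith
      rw [hEprod] at h7
      exact_mod_cast h7
    have hEs : E i < (s + 1) * (s + 1) := by
      have h5 : X < (s + 1) * (s + 1) := by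
        rw [hsdef]
        exact Nat.lt_succ_sqrt X
      omega
    have hgix : (dt.g i).eval x = a * x + b₀ := by
      rw [hgi]
      simp
    have hgkx : (dt.g k).eval x = α * x ^ 2 + β * x + γ := by
      rw [hgk]
      simp
    rw [hgix] at hu
    rw [hgkx, hEk, Nat.cast_one, mul_one] at hv
    refine mem_ZZ a b₀ A B CC M x (w * v) (τ i) u (E i) s hC0 hΔ hM ?_ ?_ ?_ hu0 (hτ0 i) hEi hu ?_
      hEs
    · exact ⟨2 * CC * dt.B, by rw [hMd]; ring⟩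
    · rw [hMd]
      exact Dvd.dvd.mul_right (dvd_mul_left _ _) _
    · rw [hMd]
      exact Dvd.dvd.mul_left (hdesc.2.1 i) _
    · have e1 : A * (a * x + b₀) ^ 2 + B * (a * x + b₀) + CC = a ^ 2 * (τ k * v ^ 2) := by
        rw [← hv, hA, hB, hCC]
        ring
      rw [e1]
      have e2 : τ k * (CC * a ^ 2) = w * w := by
        rw [← hkap]
        exact hw
      linear_combination (-(v ^ 2)) * e2
  obtain ⟨hZfin, hZcard⟩ := hn s
  choose! xx hxZ yy hyy hxy using hpt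
  have hinj : Set.InjOn xx (DegSet3 dt ∩ {D : ℤ | |D| ≤ (X : ℤ)}) := by
    intro D hD D' hD' h
    refine twist_unique (f := f) (x := xx D) (y := yy D) (y' := yy D') hD.1.1 hD'.1.1 (hyy D hD)
      (hxy D hD) ?_
    rw [h]
    exact hxy D' hD'
  refine ⟨Set.Finite.of_finite_image (hZfin.subset ?_) hinj, ?_⟩
  · rintro _ ⟨D, hD, rfl⟩
    exact hxZ D hD
  · exact (Set.ncard_le_ncard_of_injOn xx (fun D hD => hxZ D hD) hinj hZfin).trans hZcard

end Pool.Agent.Helper32.TW
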